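import Pool.Agent.H95.CMC.Targets

/-!
# Cancellation over the lines through a vector which is not prime to `f` (row F_PRI)
-/

set_option autoImplicit false

open MeasureTheory Set Filter NumberField
open scoped Real nonZeroDivisors

namespace Pool.Agent.H2.CMC

open Pool.Agent.H65.CM4 Pool.Agent.H65.CMC Pool.Agent.H95.CMC

theorem mem_ln {k K : Type} [Field k] [NumberField k] [Field K] [NumberField K] [Algebra k K]
    (f : Ideal (𝓞 k)) (I : Ideal (𝓞 K)) (l x : 𝓞 K) :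
    x ∈ ln f I l ↔ ∃ n : 𝓞 k, x - algebraMap (𝓞 k) (𝓞 K) n * l ∈
      f.map (algebraMap (𝓞 k) (𝓞 K)) * I := Iff.rfl

theorem self_mem_ln {k K : Type} [Field k] [NumberField k] [Field K] [NumberField K] [Algebra k K]
    (f : Ideal (𝓞 k)) (I : Ideal (𝓞 K)) (l : 𝓞 K) : l ∈ ln f I l := by
  rw [mem_ln]
  refine ⟨1, ?_⟩
  rw [map_one, one_mul, sub_self]
  exact Ideal.zero_mem _

theorem fi_le_ln {k K : Type} [Field k] [NumberField k] [Field K] [NumberField K] [Algebra k K]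
    (f : Ideal (𝓞 k)) (I : Ideal (𝓞 K)) (l : 𝓞 K) :
    (f.map (algebraMap (𝓞 k) (𝓞 K)) * I).restrictScalars (𝓞 k) ≤ ln f I l := by
  intro x hx
  rw [mem_ln]
  refine ⟨0, ?_⟩
  rw [map_zero, zero_mul, sub_zero]
  exact hx

theorem lp_le_ln {k K : Type} [Field k] [NumberField k] [Field K] [NumberField K] [Algebra k K]
    (P f : Ideal (𝓞 k)) (I : Ideal (𝓞 K)) (l : 𝓞 K) : lp P f I (ln f I l) ≤ ln f I l := by
  unfold Pool.Agent.H95.CMC.lp
  exact sup_le Submodule.smul_le_right (fi_le_ln f I l)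

theorem mem_lp_of {k K : Type} [Field k] [NumberField k] [Field K] [NumberField K] [Algebra k K]
    (P f : Ideal (𝓞 k)) (I : Ideal (𝓞 K)) (l v : 𝓞 K) (n : 𝓞 k) (hn : n ∈ P)
    (h : v - algebraMap (𝓞 k) (𝓞 K) n * l ∈ f.map (algebraMap (𝓞 k) (𝓞 K)) * I) :
    v ∈ lp P f I (ln f I l) := by
  have h1 : v = n • l + (v - algebraMap (𝓞 k) (𝓞 K) n * l) := by
    rw [Algebra.smul_def]; ring
  unfold Pool.Agent.H95.CMC.lp
  rw [h1]
  exact Submodule.add_mem _ (Submodule.mem_sup_left (Submodule.smul_mem_smul hn (self_mem_ln f I l)))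
    (Submodule.mem_sup_right h)

theorem pf_PRI (hLNB : T_LNB) (hTAB : T_TAB) : T_PRI := by
  intro k K _ _ _ _ _ _ _ _ Φ f m ψ I hΦ hψ hI v hv hv0 hnp
  classical
  obtain ⟨hL1, -, -⟩ := hLNB k K f I hψ.fne hI
  have hne : Ideal.span {v} ⊔ f.map (algebraMap (𝓞 k) (𝓞 K)) ≠ ⊤ := by
    intro h
    apply hnp
    refine ⟨?_, h⟩
    intro h0
    exact hv0 (Ideal.span_singleton_eq_bot.mp h0)
  obtain ⟨Q, hQm, hQ⟩ := Ideal.exists_le_maximal _ hne
  have hvQ : v ∈ Q := hQ (Ideal.mem_sup_left (Ideal.mem_span_singleton_self v))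
  have hFQ : f.map (algebraMap (𝓞 k) (𝓞 K)) ≤ Q := le_trans le_sup_right hQ
  have hQp : Q.IsPrime := hQm.isPrime
  have hPp : (Q.comap (algebraMap (𝓞 k) (𝓞 K))).IsPrime := Ideal.comap_isPrime _ _
  have hPf : Q.comap (algebraMap (𝓞 k) (𝓞 K)) ∣ f := by
    rw [Ideal.dvd_iff_le]
    exact Ideal.map_le_iff_le_comap.mp hFQ
  obtain ⟨ξ, T, hξ, hT, hTinj⟩ := hTAB k K Φ f m ψ I hΦ hψ hI _ hPp hPf
  have key : ∀ Λ : Sl k K, Λ ∈ Ln f I →
      (v ∈ Λ ↔ v ∈ lp (Q.comap (algebraMap (𝓞 k) (𝓞 K))) f I Λ) := by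
    intro Λ hΛ
    obtain ⟨l, hlI, hl, rfl⟩ := (hL1 Λ).mp hΛ
    constructor
    · intro hvl
      rw [mem_ln] at hvl
      obtain ⟨n, hn⟩ := hvl
      have hz0 : f.map (algebraMap (𝓞 k) (𝓞 K)) * I ≤ f.map (algebraMap (𝓞 k) (𝓞 K)) :=
        Ideal.mul_le_left
      have hz : v - algebraMap (𝓞 k) (𝓞 K) n * l ∈ Q := hFQ (hz0 hn)
      have hnl : algebraMap (𝓞 k) (𝓞 K) n * l ∈ Q := by
        have h := Q.sub_mem hvQ hz
        rwa [sub_sub_cancel] at h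
      have hlQ : l ∉ Q := by
        intro h
        apply hQp.ne_top
        rw [eq_top_iff, ← hl.2]
        exact sup_le ((Ideal.span_singleton_le_iff_mem Q).mpr h) hFQ
      have hnQ : n ∈ Q.comap (algebraMap (𝓞 k) (𝓞 K)) := by
        rcases hQp.mem_or_mem hnl with h | h
        · exact h
        · exact absurd h hlQ
      exact mem_lp_of _ f I l v n hnQ hn
    · intro h
      exact lp_le_ln _ f I l h
  have hTS : ∀ Λ ∈ (Ln f I).filter (fun Λ : Sl k K => v ∈ Λ),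
      T Λ ∈ (Ln f I).filter (fun Λ : Sl k K => v ∈ Λ) := by
    intro Λ hΛ
    rw [Finset.mem_filter] at hΛ ⊢
    obtain ⟨h1, -, h3⟩ := hT Λ hΛ.1
    refine ⟨h1, ?_⟩
    rw [key _ h1, h3, ← key _ hΛ.1]
    exact hΛ.2
  have hinj : Set.InjOn T ((Ln f I).filter (fun Λ : Sl k K => v ∈ Λ) : Finset (Sl k K)) := by
    intro Λ hΛ Λ' hΛ' h
    rw [Finset.mem_coe, Finset.mem_filter] at hΛ hΛ'
    exact hTinj Λ Λ' hΛ.1 hΛ'.1 h
  have himg : ((Ln f I).filter (fun Λ : Sl k K => v ∈ Λ)).image T =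
      (Ln f I).filter (fun Λ : Sl k K => v ∈ Λ) := by
    apply Finset.eq_of_subset_of_card_le
    · intro x hx
      obtain ⟨Λ, hΛ, rfl⟩ := Finset.mem_image.mp hx
      exact hTS Λ hΛ
    · rw [Finset.card_image_of_injOn hinj]
  have hsum : ∑ Λ ∈ (Ln f I).filter (fun Λ : Sl k K => v ∈ Λ), rh Φ m ψ f I Λ =
      ξ * ∑ Λ ∈ (Ln f I).filter (fun Λ : Sl k K => v ∈ Λ), rh Φ m ψ f I Λ := by
    conv_lhs => rw [← himg, Finset.sum_image hinj]
    rw [Finset.mul_sum]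
    refine Finset.sum_congr rfl ?_
    intro Λ hΛ
    rw [Finset.mem_filter] at hΛ
    exact (hT Λ hΛ.1).2.1
  have h9 : (1 - ξ) * ∑ Λ ∈ (Ln f I).filter (fun Λ : Sl k K => v ∈ Λ), rh Φ m ψ f I Λ = 0 := by
    rw [sub_mul, one_mul, ← hsum, sub_self]
  rcases mul_eq_zero.mp h9 with h | h
  · exact absurd (sub_eq_zero.mp h).symm hξ
  · exact h

end Pool.Agent.H2.CMC
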